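import Pool.Agent.H.MP_2e2606_al.A

namespace Pool.Agent.Results.MP_2e2606_al.Block

open Pool.Agent.H.MP_b831a3_al Pool.Agent.H.MP_2e2606_al

theorem result (n : ℕ) (hn : 2 ≤ n) (S : Subgroup (FreeGroup (Fin n))) (hS : S.FG)
    (hi : S.index = 0) : ∃ u : FreeGroup (Fin n), ∀ g : FreeGroup (Fin n),
      FreeGroup.IsCyclicallyReduced g.toWord → u.toWord <:+: g.toWord →
        ¬ ∃ φ : MulAut (FreeGroup (Fin n)), φ g ∈ S := by
  obtain ⟨V, _, h⟩ := hall S hS hi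
  obtain ⟨U, h1, h2⟩ := univ hn V
  refine ⟨FreeGroup.mk U, ?_⟩
  rintro g a b ⟨φ, c⟩
  rw [Pool.Agent.H.MP_1d2ce7_al.tw h1] at b
  exact h2 _ a (by rw [FreeGroup.mk_toWord]; exact QR.aut φ (h _ c)) b

end Pool.Agent.Results.MP_2e2606_al.Block
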